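import Mathlib

namespace Pool.Agent.Results.MP_105763_al.Zero

open Polynomial Module

/-- The primitive idempotent `∏_{j ≠ i} (X - θ_j) / (θ_i - θ_j)` of `X`. -/
noncomputable def idem {K 𝒜 : Type*} [Field K] [Ring 𝒜] [Algebra K 𝒜] {d : ℕ}
    (x : 𝒜) (θ : Fin (d + 1) → K) (i : Fin (d + 1)) : 𝒜 :=
  aeval x (∏ j ∈ Finset.univ.erase i, (C (θ i - θ j)⁻¹ * (X - C (θ j))))

/-- `E` is an ordering of the primitive idempotents of the multiplicity-free element `x`. -/
def PrimIdem (K : Type*) {𝒜 : Type*} [Field K] [Ring 𝒜] [Algebra K 𝒜] {d : ℕ}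
    (x : 𝒜) (E : Fin (d + 1) → 𝒜) : Prop :=
  ∃ θ : Fin (d + 1) → K, Function.Injective θ ∧ (∀ i, θ i ∈ spectrum K x) ∧ ∀ i, E i = idem x θ i

/-- `E i * y * E j` vanishes for `|i - j| > 1` and is nonzero for `|i - j| = 1`. -/
def Tridiag {𝒜 : Type*} [Ring 𝒜] {d : ℕ} (E : Fin (d + 1) → 𝒜) (y : 𝒜) : Prop :=
  ∀ i j : Fin (d + 1), (1 < |(i : ℤ) - (j : ℤ)| → E i * y * E j = 0) ∧
    (|(i : ℤ) - (j : ℤ)| = 1 → E i * y * E j ≠ 0)

def Leonard (K : Type*) {𝒜 : Type*} [Field K] [Ring 𝒜] [Algebra K 𝒜] {d : ℕ}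
    (A : 𝒜) (E : Fin (d + 1) → 𝒜) (As : 𝒜) (Es : Fin (d + 1) → 𝒜) : Prop :=
  PrimIdem K A E ∧ PrimIdem K As Es ∧ Tridiag E As ∧ Tridiag Es A

section
variable {K V : Type*} [Field K] [AddCommGroup V] [Module K V] {d : ℕ}

def Hess (c : Basis (Fin (d + 1)) K V) (T : End K V) : Prop :=
  ∀ i j : Fin (d + 1), ((j : ℕ) + 1 < i → c.repr (T (c j)) i = 0) ∧
    ((j : ℕ) + 1 = i → c.repr (T (c j)) i ≠ 0)

lemma mem_of_others (b : Basis (Fin (d + 1)) K V) (W : Submodule K V) (v : V) (hv : v ∈ W)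
    (k : Fin (d + 1)) (hk : b.repr v k ≠ 0) (h : ∀ j, j ≠ k → b.repr v j ≠ 0 → b j ∈ W) :
    b k ∈ W := by
  have e := b.sum_repr v
  rw [← Finset.add_sum_erase _ _ (Finset.mem_univ k)] at e
  have h2 : ∑ j ∈ Finset.univ.erase k, b.repr v j • b j ∈ W := by
    refine W.sum_mem fun j hj => ?_
    by_cases z : b.repr v j = 0
    · simp [z]
    · exact W.smul_mem _ (h j (Finset.ne_of_mem_erase hj) z)
  have h3 : b.repr v k • b k ∈ W := by
    have := W.sub_mem hv h2
    rwa [← eq_sub_of_add_eq e] at this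
  exact (W.smul_mem_iff hk).1 h3

lemma top_of (b : Basis (Fin (d + 1)) K V) (W : Submodule K V) (h : ∀ j, b j ∈ W) (v : V) :
    v ∈ W := by
  rw [← b.sum_repr v]
  exact W.sum_mem fun j _ => W.smul_mem _ (h j)

lemma cyc (c : Basis (Fin (d + 1)) K V) (T : End K V) (h : Hess c T) (U : Submodule K V)
    (h0 : c 0 ∈ U) (hT : ∀ v ∈ U, T v ∈ U) (v : V) : v ∈ U := by
  apply top_of c
  have : ∀ k : ℕ, ∀ i : Fin (d + 1), (i : ℕ) ≤ k → c i ∈ U := by
    intro k
    induction k with
    | zero =>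
      intro i hi
      have : i = 0 := Fin.ext (by simpa using hi)
      rwa [this]
    | succ k ih =>
      intro i hi
      by_cases e : (i : ℕ) ≤ k
      · exact ih i e
      let j : Fin (d + 1) := ⟨k, by omega⟩
      refine mem_of_others c U (T (c j)) (hT _ (ih j le_rfl)) i ((h i j).2 (by simp [j]; omega)) ?_
      intro l hl hz
      apply ih
      by_contra hh
      apply hz
      apply (h l j).1
      have : (l : ℕ) ≠ i := fun e => hl (Fin.ext e)
      simp only [j]; omega
  exact fun j => this j j le_rfl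

lemma nz (b c : Basis (Fin (d + 1)) K V) (T : End K V) (h : Hess c T) (θ : Fin (d + 1) → K)
    (hb : ∀ j, T (b j) = θ j • b j) (j : Fin (d + 1)) : b.repr (c 0) j ≠ 0 := by
  intro hz
  have key : (b.coord j) ∘ₗ T = θ j • b.coord j := by
    refine b.ext fun l => ?_
    by_cases e : l = j
    · simp [hb, e]
    · simp [hb, Finsupp.single_apply, e]
  have := cyc c T h (LinearMap.ker (b.coord j)) (by simpa using hz) (fun v hv => by
    have := LinearMap.congr_fun key v
    simp only [LinearMap.mem_ker] at hv ⊢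
    simp only [LinearMap.comp_apply, LinearMap.smul_apply, hv, smul_zero] at this
    exact this) (b j)
  simp at this

lemma basis_of [FiniteDimensional K V] (hV : finrank K V = d + 1) {T : End K V}
    {E : Fin (d + 1) → End K V} (h : PrimIdem K T E) :
    ∃ (b : Basis (Fin (d + 1)) K V) (θ : Fin (d + 1) → K), Function.Injective θ ∧
      (∀ j, T (b j) = θ j • b j) ∧ ∀ i v, E i v = b.repr v i • b i := by
  obtain ⟨θ, hθ, hs, hE⟩ := h
  have := fun i => (End.hasEigenvalue_iff_mem_spectrum.2 (hs i)).exists_hasEigenvector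
  choose x hx using this
  have li := End.eigenvectors_linearIndependent' T θ hθ x hx
  let b := basisOfLinearIndependentOfCardEqFinrank li (by simp [hV])
  have hb : ∀ j, b j = x j := fun j => by simp [b]
  refine ⟨b, θ, hθ, fun j => by rw [hb]; exact (hx j).apply_eq_smul, fun i v => ?_⟩
  have : E i = (b.coord i).smulRight (b i) := by
    refine b.ext fun l => ?_
    rw [hE, idem, hb l, End.aeval_apply_of_hasEigenvector (hx l), ← hb l]
    simp only [eval_prod, eval_mul, eval_C, eval_sub, eval_X, LinearMap.smulRight_apply,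
      Basis.coord_apply, Basis.repr_self]
    by_cases e : l = i
    · subst e
      rw [Finset.prod_eq_one]
      · simp
      · intro j hj
        exact inv_mul_cancel₀ (sub_ne_zero.2 fun e => Finset.ne_of_mem_erase hj (hθ e).symm)
    · rw [Finset.prod_eq_zero (i := l) (by simp [e]) (by simp)]
      simp [Finsupp.single_apply, e]
  rw [this]; simp

lemma entry (b : Basis (Fin (d + 1)) K V) {E : Fin (d + 1) → End K V}
    (hE : ∀ i v, E i v = b.repr v i • b i) (y : End K V) (i j : Fin (d + 1)) :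
    E i * y * E j = 0 ↔ b.repr (y (b j)) i = 0 := by
  constructor
  · intro h
    have := LinearMap.congr_fun h (b j)
    simpa [hE, b.ne_zero] using this
  · intro h
    ext v
    simp [hE, h]

lemma poly (c : Basis (Fin (d + 1)) K V) (T : End K V) (h : Hess c T) :
    ∀ k : ℕ, ∀ i : Fin (d + 1), (i : ℕ) ≤ k →
      c i ∈ (degreeLT K (k + 1)).map (LinearMap.applyₗ (c 0) ∘ₗ (aeval T).toLinearMap) := by
  intro k
  induction k with
  | zero =>
    intro i hi
    have : i = 0 := Fin.ext (by simpa using hi)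
    exact ⟨1, by simp [mem_degreeLT], by simp [this]⟩
  | succ k ih =>
    have up : ∀ i : Fin (d + 1), (i : ℕ) ≤ k → c i ∈ (degreeLT K (k + 1 + 1)).map
        (LinearMap.applyₗ (c 0) ∘ₗ (aeval T).toLinearMap) := fun i hi =>
      Submodule.map_mono (degreeLT_mono (by omega)) (ih i hi)
    intro i hi
    by_cases e : (i : ℕ) ≤ k
    · exact up i e
    let j : Fin (d + 1) := ⟨k, by omega⟩
    refine mem_of_others c _ (T (c j)) ?_ i ((h i j).2 (by simp [j]; omega)) ?_
    · obtain ⟨p, hp, hp'⟩ := ih j le_rfl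
      refine ⟨X * p, ?_, by rw [← hp']; simp⟩
      simp only [SetLike.mem_coe, mem_degreeLT] at hp ⊢
      rw [mul_comm, degree_mul_X]
      exact_mod_cast WithBot.add_lt_add_right WithBot.one_ne_bot hp
    · intro l hl hz
      apply up
      by_contra hh
      apply hz
      apply (h l j).1
      have : (l : ℕ) ≠ i := fun e => hl (Fin.ext e)
      simp only [j]; omega

end

theorem result (K V : Type*) [Field K] [AddCommGroup V] [Module K V] [FiniteDimensional K V]
    (d : ℕ) (hV : finrank K V = d + 1) (A As : End K V) (E Es : Fin (d + 1) → End K V)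
    (h : Leonard K A E As Es) (r : Fin (d + 1)) (L : Finset (Fin (d + 1)))
    (hL : L.card ≤ d - r) :
    (⨆ i ∈ Set.Iic r, LinearMap.range (Es i)) ⊓ (⨆ j ∈ L, LinearMap.range (E j)) = ⊥ := by
  obtain ⟨hA, hAs, -, t2⟩ := h
  obtain ⟨b, θ, hθ, hb, hE⟩ := basis_of hV hA
  obtain ⟨c, η, -, -, hEs⟩ := basis_of hV hAs
  have H1 : Hess c A := fun i j =>
    ⟨fun hh => (entry c hEs A i j).1 ((t2 i j).1 (by rw [lt_abs]; omega)),
     fun hh hz => (t2 i j).2 (by rw [abs_eq (by norm_num)]; omega) ((entry c hEs A i j).2 hz)⟩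
  rw [eq_bot_iff]
  rintro v ⟨h1, h2⟩
  have s1 : (⨆ i ∈ Set.Iic r, LinearMap.range (Es i)) ≤
      (degreeLT K (r + 1)).map (LinearMap.applyₗ (c 0) ∘ₗ (aeval A).toLinearMap) := by
    refine iSup₂_le fun i hi => ?_
    rintro _ ⟨w, rfl⟩
    rw [hEs]
    exact Submodule.smul_mem _ _ (poly c A H1 r i hi)
  obtain ⟨p, hp, rfl⟩ := s1 h1
  have key : ∀ j, b.repr (aeval A p (c 0)) j = p.eval (θ j) * b.repr (c 0) j := by
    intro j
    have : (b.coord j) ∘ₗ (aeval A p) = p.eval (θ j) • b.coord j := by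
      refine b.ext fun l => ?_
      have hl : A.HasEigenvector (θ l) (b l) :=
        ⟨End.mem_eigenspace_iff.2 (hb l), b.ne_zero l⟩
      by_cases e : l = j
      · simp [End.aeval_apply_of_hasEigenvector hl, ← e]
      · simp [End.aeval_apply_of_hasEigenvector hl, e]
    simpa using LinearMap.congr_fun this (c 0)
  have s2 : ∀ j ∉ L, (⨆ j ∈ L, LinearMap.range (E j)) ≤ LinearMap.ker (b.coord j) := by
    intro j hj
    refine iSup₂_le fun l hl => ?_
    rintro _ ⟨w, rfl⟩
    have : l ≠ j := fun e => hj (e ▸ hl)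
    simp [hE, this]
  have hp0 : p = 0 := by
    refine eq_zero_of_degree_lt_of_eval_index_eq_zero (v := θ) Lᶜ hθ.injOn ?_ fun j hj => ?_
    · refine (mem_degreeLT.1 hp).trans_le ?_
      have := r.2
      rw [Finset.card_compl, Fintype.card_fin]
      exact_mod_cast (by omega)
    · have := s2 j (Finset.mem_compl.1 hj) h2
      simp only [LinearMap.mem_ker, LinearMap.comp_apply, AlgHom.toLinearMap_apply,
        LinearMap.applyₗ_apply_apply, Basis.coord_apply, key] at this
      exact (mul_eq_zero.1 this).resolve_right (nz b c A H1 θ hb j)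
  simp [hp0]

end Pool.Agent.Results.MP_105763_al.Zero
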